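import Pool.Agent.Lib.MP_0e3b4a_gt.H72.Base

/-! # Module EXPB: the first and the second variation of the endpoint map (helper72) -/

set_option autoImplicit false
set_option linter.unusedSectionVars false

namespace Pool.Agent.CutLoci.H72

open MeasureTheory Set Filter Topology
open scoped BoundedContinuousFunction

section

variable {g : Type} [NormedAddCommGroup g] [NormedSpace ℝ g] [FiniteDimensional ℝ g] {r : ℕ}

/-- the integrand of the first variation -/
noncomputable def wv (C : Carnot g r) (u x : ℝ → EE r) (s : ℝ) : g := C.Ad u s (C.X (x s))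

theorem org_add (S T : Carnot.Aff g) :
    Carnot.org (S + T) = Carnot.org S + Carnot.org T := rfl

theorem org_smul (c : ℝ) (T : Carnot.Aff g) : Carnot.org (c • T) = c • Carnot.org T := rfl

/-- the linear map `org` -/
noncomputable def orgL : Carnot.Aff g →L[ℝ] g :=
  (ContinuousLinearMap.fst ℝ g ℝ).comp (ContinuousLinearMap.apply ℝ (g × ℝ) ((0, 1) : g × ℝ))

theorem orgL_apply (T : Carnot.Aff g) : orgL T = Carnot.org T := rfl

variable (C : Carnot g r) {u : ℝ → EE r}

section ad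

variable (hAd : ContinuousOn (C.Ad u) (Icc 0 1))

include hAd

theorem wv_int {x : ℝ → EE r} (hx : IntegrableOn x (Ioc 0 1)) :
    IntegrableOn (wv C u x) (Ioc 0 1) :=
  int_bil ((ContinuousLinearMap.apply ℝ g).flip) hAd (clm_int C.X hx)

theorem W_cont {x : ℝ → EE r} (hx : IntegrableOn x (Ioc 0 1)) :
    ContinuousOn (C.W u x) (Icc 0 1) :=
  prim_cont (wv_int C hAd hx)

theorem rep_W {x : ℝ → EE r} (hx : IntegrableOn x (Ioc 0 1)) (t : ℝ)
    (ht : t ∈ Icc (0 : ℝ) 1) :
    C.rep (C.W u x t) = 0 + ∫ s in (0 : ℝ)..t, C.rep (wv C u x s) := by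
  rw [zero_add]
  exact (C.rep.intervalIntegral_comp_comm (ii (wv_int C hAd hx) ht)).symm

/-- the quadratic part of the second variation -/
noncomputable def J (C : Carnot g r) (u x y : ℝ → EE r) (t : ℝ) : Carnot.Aff g :=
  ∫ s in (0 : ℝ)..t, C.rep (C.W u x s) * C.rep (wv C u y s)

theorem J_int {x y : ℝ → EE r} (hx : IntegrableOn x (Ioc 0 1)) (hy : IntegrableOn y (Ioc 0 1)) :
    IntegrableOn (fun s => C.rep (C.W u x s) * C.rep (wv C u y s)) (Ioc 0 1) :=
  int_bil (ContinuousLinearMap.mul ℝ (Carnot.Aff g))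
    (C.rep.continuous.comp_continuousOn (W_cont C hAd hx)) (clm_int C.rep (wv_int C hAd hy))

end ad

/-- the structure of the curve used here -/
structure Str (C : Carnot g r) (u : ℝ → EE r) : Prop where
  int : IntegrableOn u (Ioc 0 1)
  gc : ContinuousOn (C.Gam u) (Icc 0 1)
  ac : ContinuousOn (C.Ad u) (Icc 0 1)
  geq : ∀ t ∈ Icc (0 : ℝ) 1, C.Gam u t = 1 + ∫ s in (0 : ℝ)..t, C.Gam u s * C.R (u s)
  com : ∀ t ∈ Icc (0 : ℝ) 1, ∀ x, C.Gam u t * C.rep x = C.rep (C.Ad u t x) * C.Gam u t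
  app : ∀ t ∈ Icc (0 : ℝ) 1, C.Gam u t ((0 : g), (1 : ℝ)) = (Carnot.org (C.Gam u t), 1)

theorem str (hF : FlowStatement) (hS : StrucStatement g r) (hN : NilpStatement g r)
    (hu : IntegrableOn u (Ioc 0 1)) : Str C u := by
  obtain ⟨h1, h2, h3⟩ := hS C u hu
  refine ⟨hu, h1, h2, (hF r _ C.R (C.s + 1) (hN C).1 u hu).2, fun t ht => (h3 t ht).2.2.1,
    fun t ht => ?_⟩
  rw [(h3 t ht).1 0 1, map_zero, zero_add, one_smul]

variable {C} (S : Str C u)

include S

theorem Str.Gint : IntegrableOn (fun s => C.Gam u s * C.R (u s)) (Ioc 0 1) :=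
  int_bil (ContinuousLinearMap.mul ℝ (Carnot.Aff g)) S.gc (clm_int C.R S.int)

theorem Str.com' {x : ℝ → EE r} {t : ℝ} (ht : t ∈ Icc (0 : ℝ) 1) :
    C.rep (wv C u x t) * C.Gam u t = C.Gam u t * C.R (x t) := (S.com t ht (C.X (x t))).symm

/-- `org (rep w Γ) = κ_b w` -/
theorem Str.kap {t : ℝ} (ht : t ∈ Icc (0 : ℝ) 1) (w : g) :
    Carnot.org (C.rep w * C.Gam u t) = C.kap (Carnot.org (C.Gam u t)) w := by
  have h1 : Carnot.org (C.rep w * C.Gam u t) = (C.rep w (C.Gam u t ((0 : g), (1 : ℝ)))).1 := rfl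
  rw [h1, S.app t ht, C.rep_apply]
  change C.br w (Carnot.org (C.Gam u t)) + (1 : ℝ) • C.D w = C.D w + C.br w _
  rw [one_smul, add_comm]

/-- the first variation of the curve -/
theorem Str.first (hP : ProdStatement) (hU : UniqStatement) {x : ℝ → EE r}
    (hx : IntegrableOn x (Ioc 0 1)) {B : ℝ → Carnot.Aff g} (hB : ContinuousOn B (Icc 0 1))
    (hBe : ∀ t ∈ Icc (0 : ℝ) 1, B t =
      ∫ s in (0 : ℝ)..t, (B s * C.R (u s) + C.Gam u s * C.R (x s))) (t : ℝ)
    (ht : t ∈ Icc (0 : ℝ) 1) : B t = C.rep (C.W u x t) * C.Gam u t := by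
  have hwx := wv_int C S.ac hx
  have hrc : ContinuousOn (fun t => C.rep (C.W u x t)) (Icc 0 1) :=
    C.rep.continuous.comp_continuousOn (W_cont C S.ac hx)
  have h1 := prodA hP (clm_int C.rep hwx) S.Gint (rep_W C S.ac hx) S.geq
  have h2 : ∀ t ∈ Icc (0 : ℝ) 1, B t - C.rep (C.W u x t) * C.Gam u t =
      ∫ s in (0 : ℝ)..t, (B s - C.rep (C.W u x s) * C.Gam u s) * C.R (u s) := by
    intro t ht
    rw [h1 t ht, hBe t ht, zero_mul, zero_add, ← intervalIntegral.integral_sub]
    · refine int_congr ht fun s hs => ?_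
      rw [S.com' hs, sub_mul, mul_assoc (C.rep (C.W u x s))]
      abel
    · refine ii (IntegrableOn.add ?_ ?_) ht
      · exact int_bil (ContinuousLinearMap.mul ℝ (Carnot.Aff g)) hB (clm_int C.R S.int)
      · exact int_bil (ContinuousLinearMap.mul ℝ (Carnot.Aff g)) S.gc (clm_int C.R hx)
    · refine ii (IntegrableOn.add ?_ ?_) ht
      · exact int_bil' (ContinuousLinearMap.mul ℝ (Carnot.Aff g)) (clm_int C.rep hwx) S.gc
      · exact int_bil (ContinuousLinearMap.mul ℝ (Carnot.Aff g)) hrc S.Gint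
  have h3 := hU (Carnot.Aff g) (fun s => C.R (u s))
    (fun t => B t - C.rep (C.W u x t) * C.Gam u t) (clm_int C.R S.int)
    (hB.sub (hrc.mul S.gc)) (Or.inl h2) t ht
  exact sub_eq_zero.1 h3

/-- the second variation of the curve -/
theorem Str.second (hP : ProdStatement) (hU : UniqStatement) {x : ℝ → EE r}
    (hx : IntegrableOn x (Ioc 0 1)) {B G : ℝ → Carnot.Aff g} (hG : ContinuousOn G (Icc 0 1))
    (hB : ∀ t ∈ Icc (0 : ℝ) 1, B t = C.rep (C.W u x t) * C.Gam u t)
    (hGe : ∀ t ∈ Icc (0 : ℝ) 1, G t =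
      ∫ s in (0 : ℝ)..t, (G s * C.R (u s) + B s * C.R (x s))) (t : ℝ)
    (ht : t ∈ Icc (0 : ℝ) 1) : G t = J C u x x t * C.Gam u t := by
  have hJi := J_int C S.ac hx hx
  have hJc : ContinuousOn (J C u x x) (Icc 0 1) := prim_cont hJi
  have hJe : ∀ t ∈ Icc (0 : ℝ) 1, J C u x x t =
      0 + ∫ s in (0 : ℝ)..t, C.rep (C.W u x s) * C.rep (wv C u x s) := fun t _ => by
    rw [zero_add]
    rfl
  have hrc : ContinuousOn (fun t => C.rep (C.W u x t)) (Icc 0 1) :=
    C.rep.continuous.comp_continuousOn (W_cont C S.ac hx)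
  have h1 := prodA hP hJi S.Gint hJe S.geq
  have hBc : ContinuousOn B (Icc 0 1) := (hrc.mul S.gc).congr hB
  have h2 : ∀ t ∈ Icc (0 : ℝ) 1, G t - J C u x x t * C.Gam u t =
      ∫ s in (0 : ℝ)..t, (G s - J C u x x s * C.Gam u s) * C.R (u s) := by
    intro t ht
    rw [h1 t ht, hGe t ht, zero_mul, zero_add, ← intervalIntegral.integral_sub]
    · refine int_congr ht fun s hs => ?_
      rw [hB s hs, mul_assoc (C.rep (C.W u x s)) (C.rep (wv C u x s)), S.com' hs, sub_mul,
        mul_assoc (C.rep (C.W u x s)) (C.Gam u s), mul_assoc (J C u x x s)]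
      abel
    · refine ii (IntegrableOn.add ?_ ?_) ht
      · exact int_bil (ContinuousLinearMap.mul ℝ (Carnot.Aff g)) hG (clm_int C.R S.int)
      · exact int_bil (ContinuousLinearMap.mul ℝ (Carnot.Aff g)) hBc (clm_int C.R hx)
    · refine ii (IntegrableOn.add ?_ ?_) ht
      · exact int_bil' (ContinuousLinearMap.mul ℝ (Carnot.Aff g)) hJi S.gc
      · exact int_bil (ContinuousLinearMap.mul ℝ (Carnot.Aff g)) hJc S.Gint
  have h3 := hU (Carnot.Aff g) (fun s => C.R (u s))
    (fun t => G t - J C u x x t * C.Gam u t) (clm_int C.R S.int)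
    (hG.sub (hJc.mul S.gc)) (Or.inl h2) t ht
  exact sub_eq_zero.1 h3

/-- the polar form on the kernel -/
theorem Str.polar (hP : ProdStatement) (hN : NilpStatement g r) {v k : ℝ → EE r}
    (hv : IntegrableOn v (Ioc 0 1)) (hk : IntegrableOn k (Ioc 0 1)) (hv0 : C.Ker u v) :
    J C u v k 1 + J C u k v 1 = C.rep (C.Q u v k) := by
  have h1 := prodA hP (clm_int C.rep (wv_int C S.ac hk)) (clm_int C.rep (wv_int C S.ac hv))
    (rep_W C S.ac hk) (rep_W C S.ac hv) 1 (right_mem_Icc.2 zero_le_one)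
  have hv0' : C.W u v 1 = 0 := hv0
  rw [hv0', map_zero, mul_zero, zero_mul, zero_add, intervalIntegral.integral_add] at h1
  · have h2 : J C u k v 1 = - ∫ s in (0 : ℝ)..1, C.rep (wv C u k s) * C.rep (C.W u v s) := by
      rw [eq_neg_iff_add_eq_zero, add_comm]
      exact h1.symm
    have h3 : C.rep (C.Q u v k) =
        ∫ t in (0 : ℝ)..1, C.rep (C.br (C.W u v t) (wv C u k t)) := by
      refine (C.rep.intervalIntegral_comp_comm (ii ?_ (right_mem_Icc.2 zero_le_one))).symm
      exact int_bil C.br (W_cont C S.ac hv) (wv_int C S.ac hk)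
    rw [h2, h3, ← sub_eq_add_neg, J, ← intervalIntegral.integral_sub]
    · refine int_congr (right_mem_Icc.2 zero_le_one) fun s hs => ?_
      exact (hN C).2.2 _ _
    · exact ii (J_int C S.ac hv hk) (right_mem_Icc.2 zero_le_one)
    · refine ii ?_ (right_mem_Icc.2 zero_le_one)
      exact int_bil' (ContinuousLinearMap.mul ℝ (Carnot.Aff g))
        (clm_int C.rep (wv_int C S.ac hk))
        (C.rep.continuous.comp_continuousOn (W_cont C S.ac hv))
  · refine ii ?_ (right_mem_Icc.2 zero_le_one)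
    exact int_bil' (ContinuousLinearMap.mul ℝ (Carnot.Aff g))
      (clm_int C.rep (wv_int C S.ac hk))
      (C.rep.continuous.comp_continuousOn (W_cont C S.ac hv))
  · exact ii (J_int C S.ac hk hv) (right_mem_Icc.2 zero_le_one)

/-- the quadratic expansion -/
theorem Str.expand {v k : Ctl r} (ε : ℝ) :
    J C u (v + ε • k : Ctl r) (v + ε • k : Ctl r) 1 =
      J C u v v 1 + ε • (J C u v k 1 + J C u k v 1) + ε ^ 2 • J C u k k 1 := by
  have h1 : (1 : ℝ) ∈ Icc (0 : ℝ) 1 := right_mem_Icc.2 zero_le_one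
  have hae : ∀ᵐ s ∂((volume : Measure ℝ).restrict (Ioc 0 1)),
      (v + ε • k : Ctl r) s = v s + ε • k s := by
    filter_upwards [Lp.coeFn_add v (ε • k), Lp.coeFn_smul ε k] with s hs1 hs2
    rw [hs1, Pi.add_apply, hs2, Pi.smul_apply]
  have hwae : ∀ᵐ s ∂((volume : Measure ℝ).restrict (Ioc 0 1)),
      wv C u (v + ε • k : Ctl r) s = wv C u v s + ε • wv C u k s := by
    filter_upwards [hae] with s hs
    rw [wv, hs, map_add, map_smul, map_add, map_smul]
    rfl
  have hW : ∀ t ∈ Icc (0 : ℝ) 1, C.W u (v + ε • k : Ctl r) t = C.W u v t + ε • C.W u k t := by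
    intro t ht
    have h2 : C.W u (v + ε • k : Ctl r) t = ∫ s in (0 : ℝ)..t, (wv C u v s + ε • wv C u k s) :=
      int_congr_ae ht hwae
    have i5 : IntervalIntegrable (fun s => ε • wv C u k s) volume 0 t :=
      (ii (wv_int C S.ac (ctl_int k)) ht).smul ε
    rw [h2, intervalIntegral.integral_add (ii (wv_int C S.ac (ctl_int v)) ht) i5,
      intervalIntegral.integral_smul]
    rfl
  have h3 : J C u (v + ε • k : Ctl r) (v + ε • k : Ctl r) 1 =
      ∫ s in (0 : ℝ)..1, ((C.rep (C.W u v s) * C.rep (wv C u v s)) +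
        ε • ((C.rep (C.W u v s) * C.rep (wv C u k s)) +
          (C.rep (C.W u k s) * C.rep (wv C u v s))) +
        ε ^ 2 • (C.rep (C.W u k s) * C.rep (wv C u k s))) := by
    refine int_congr_ae h1 ?_
    filter_upwards [hwae, ae_restrict_mem measurableSet_Ioc] with s hs hs1
    rw [hs, hW s (Ioc_subset_Icc_self hs1), map_add, map_smul, map_add, map_smul, add_mul,
      mul_add, mul_add, smul_mul_assoc, mul_smul_comm, smul_mul_assoc, mul_smul_comm, smul_smul,
      smul_add, pow_two]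
    abel
  have i1 := ii (J_int C S.ac (ctl_int v) (ctl_int v)) h1
  have i2 := ii (J_int C S.ac (ctl_int v) (ctl_int k)) h1
  have i3 := ii (J_int C S.ac (ctl_int k) (ctl_int v)) h1
  have i4 := ii (J_int C S.ac (ctl_int k) (ctl_int k)) h1
  have i5 : IntervalIntegrable (fun s => ε ^ 2 • (C.rep (C.W u k s) * C.rep (wv C u k s)))
      volume 0 1 := i4.smul (ε ^ 2)
  have i6 : IntervalIntegrable (fun s => ε • ((C.rep (C.W u v s) * C.rep (wv C u k s)) +
      (C.rep (C.W u k s) * C.rep (wv C u v s)))) volume 0 1 := (i2.add i3).smul ε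
  rw [h3, intervalIntegral.integral_add (i1.add i6) i5,
    intervalIntegral.integral_add i1 i6, intervalIntegral.integral_smul,
    intervalIntegral.integral_smul, intervalIntegral.integral_add i2 i3]
  rfl

end

/-- EXPB: the first and the second variation of the endpoint map -/
theorem expb (g : Type) [NormedAddCommGroup g] [NormedSpace ℝ g] [FiniteDimensional ℝ g] (r : ℕ)
    (hE : ExpaStatement) (hF : FlowStatement) (hS : StrucStatement g r) (hU : UniqStatement)
    (hP : ProdStatement) (hN : NilpStatement g r) : ExpbStatement g r := by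
  intro C u
  have S := str C hF hS hN (ctl_int u)
  obtain ⟨Φ, -, hΦ, hexp⟩ := hE r (Carnot.Aff g) C.R (C.s + 1) (hN C).1
  obtain ⟨B, G, hGs, hG1, hB, hG2⟩ := hexp u
  have h1 : (1 : ℝ) ∈ Icc (0 : ℝ) 1 := right_mem_Icc.2 zero_le_one
  have hEnd : ∀ v : Ctl r, orgL (Φ v 1) = C.End v := by
    intro v
    rw [hΦ v 1]
    have h2 : max 0 (min (1 : ℝ) 1) = 1 := by norm_num
    rw [h2]
    rfl
  have hBt : ∀ x : Ctl r, ∀ t ∈ Icc (0 : ℝ) 1, B x t = C.rep (C.W u x t) * C.Gam u t :=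
    fun x t ht => S.first hP hU (ctl_int x) (B x).continuous.continuousOn (hB x) t ht
  have hGt : ∀ x : Ctl r, ∀ t ∈ Icc (0 : ℝ) 1, G (0, x) t = J C u x x t * C.Gam u t :=
    fun x t ht => S.second hP hU (ctl_int x) (G (0, x)).continuous.continuousOn (hBt x) (hG2 x)
      t ht
  have hevG : ContDiff ℝ 1 (fun p => orgL (G p 1)) := ev_contDiff orgL hGs 1
  refine ⟨fun p => orgL (G p 1), hevG, ?_, ?_⟩
  · intro δ x
    have h2 := expand_apply orgL (hG1 δ x) 1
    rw [hEnd, hEnd, hBt x 1 h1, orgL_apply (C.rep (C.W u x 1) * C.Gam u 1), S.kap h1] at h2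
    exact h2
  · intro v k hv hk
    have hd : DifferentiableAt ℝ (fun x : Ctl r => orgL (G ((0 : ℝ), x) 1)) v := by
      have h2 : ContDiff ℝ 1 (fun x : Ctl r => orgL (G ((0 : ℝ), x) 1)) :=
        hevG.comp (contDiff_const.prodMk contDiff_id)
      exact (h2.differentiable (by norm_num)).differentiableAt
    have h3 : HasDerivAt (fun ε : ℝ => orgL (G ((0 : ℝ), v + ε • k) 1))
        (fderiv ℝ (fun x : Ctl r => orgL (G ((0 : ℝ), x) 1)) v k) 0 := by
      have h4 : HasDerivAt (fun ε : ℝ => v + ε • k) k 0 := by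
        simpa using ((hasDerivAt_id (0 : ℝ)).smul_const k).const_add v
      have h5 : HasFDerivAt (fun x : Ctl r => orgL (G ((0 : ℝ), x) 1))
          (fderiv ℝ (fun x : Ctl r => orgL (G ((0 : ℝ), x) 1)) v) (v + (0 : ℝ) • k) := by
        rw [zero_smul, add_zero]
        exact hd.hasFDerivAt
      exact h5.comp_hasDerivAt (0 : ℝ) h4
    set L : Carnot.Aff g →L[ℝ] g := orgL.comp ((ContinuousLinearMap.mul ℝ (Carnot.Aff g)).flip
      (C.Gam u 1)) with hL
    have hLa : ∀ T, L T = Carnot.org (T * C.Gam u 1) := fun T => rfl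
    have h6 : (fun ε : ℝ => orgL (G ((0 : ℝ), v + ε • k) 1)) = fun ε : ℝ =>
        L (J C u v v 1) + ε • L (J C u v k 1 + J C u k v 1) + ε ^ 2 • L (J C u k k 1) := by
      funext ε
      rw [hGt _ 1 h1, orgL_apply, ← hLa, S.expand, map_add, map_add, map_smul, map_smul]
    have h7 : HasDerivAt (fun ε : ℝ =>
        L (J C u v v 1) + ε • L (J C u v k 1 + J C u k v 1) + ε ^ 2 • L (J C u k k 1))
        (L (J C u v k 1 + J C u k v 1)) 0 := by
      have h8 : HasDerivAt (fun ε : ℝ =>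
          L (J C u v v 1) + ε • L (J C u v k 1 + J C u k v 1) + ε ^ 2 • L (J C u k k 1)) _ 0 :=
        (((hasDerivAt_id (0 : ℝ)).smul_const (L (J C u v k 1 + J C u k v 1))).const_add
          (L (J C u v v 1))).add ((hasDerivAt_pow 2 (0 : ℝ)).smul_const (L (J C u k k 1)))
      exact h8.congr_deriv (by simp)
    rw [h6] at h3
    have h9 := h3.unique h7
    refine h9.trans ?_
    rw [S.polar hP hN (ctl_int v) (ctl_int k) hv, hLa, S.kap h1]
    rfl

end Pool.Agent.CutLoci.H72
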