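import Pool.Agent.Lib.MP_0e3b4a_gt.H72.Base

/-! # Module NMAP, abstract part (helper72) -/

set_option autoImplicit false
set_option linter.unusedSectionVars false

namespace Pool.Agent.CutLoci.H72

open MeasureTheory Set Filter Topology
open scoped BoundedContinuousFunction

variable {A L : Type} [NormedRing A] [NormedAlgebra ℝ A] [NormedAddCommGroup L]
  [NormedSpace ℝ L] {r : ℕ}

/-- the bounded continuous function `t ↦ β (F t) l` -/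
noncomputable def bfun (β : A →L[ℝ] L →L[ℝ] EE r) (F : ℝ →ᵇ A) (l : L) : ℝ →ᵇ EE r :=
  BoundedContinuousFunction.ofNormedAddCommGroup (fun t => β (F t) l)
    ((β.flip l).continuous.comp F.continuous) (‖β‖ * ‖F‖ * ‖l‖) fun t =>
      (β.le_opNorm₂ (F t) l).trans (by
        gcongr
        exact F.norm_coe_le_norm t)

theorem bfun_apply (β : A →L[ℝ] L →L[ℝ] EE r) (F : ℝ →ᵇ A) (l : L) (t : ℝ) :
    bfun β F l t = β (F t) l := rfl

theorem bfun_norm (β : A →L[ℝ] L →L[ℝ] EE r) (F : ℝ →ᵇ A) (l : L) :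
    ‖bfun β F l‖ ≤ ‖β‖ * ‖F‖ * ‖l‖ :=
  BoundedContinuousFunction.norm_ofNormedAddCommGroup_le _ (by positivity) _

/-- the bilinear map with values in the controls -/
theorem lift_bil (β : A →L[ℝ] L →L[ℝ] EE r) : ∃ 𝔅 : (ℝ →ᵇ A) →L[ℝ] L →L[ℝ] Ctl r,
    ∀ F l, (𝔅 F l : ℝ → EE r) =ᵐ[(volume : Measure ℝ).restrict (Ioc 0 1)]
      fun t => β (F t) l := by
  let T : (ℝ →ᵇ EE r) →L[ℝ] Ctl r :=
    BoundedContinuousFunction.toLp 2 ((volume : Measure ℝ).restrict (Ioc 0 1)) ℝ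
  let f : (ℝ →ᵇ A) →ₗ[ℝ] L →ₗ[ℝ] Ctl r := LinearMap.mk₂ ℝ (fun F l => T (bfun β F l))
    (fun F F' l => by
      rw [← map_add]
      congr 1
      ext1 t
      simp [bfun_apply])
    (fun c F l => by
      rw [← map_smul]
      congr 1
      ext1 t
      simp [bfun_apply])
    (fun F l l' => by
      rw [← map_add]
      congr 1
      ext1 t
      simp [bfun_apply])
    (fun c F l => by
      rw [← map_smul]
      congr 1
      ext1 t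
      simp [bfun_apply])
  refine ⟨f.mkContinuous₂ (‖T‖ * ‖β‖) fun F l => ?_, fun F l => ?_⟩
  · calc ‖T (bfun β F l)‖ ≤ ‖T‖ * ‖bfun β F l‖ := T.le_opNorm _
      _ ≤ ‖T‖ * (‖β‖ * ‖F‖ * ‖l‖) := by
        gcongr
        exact bfun_norm β F l
      _ = ‖T‖ * ‖β‖ * ‖F‖ * ‖l‖ := by ring
  · exact BoundedContinuousFunction.coeFn_toLp 2 _ ℝ (bfun β F l)

theorem bound_bil (β : A →L[ℝ] L →L[ℝ] EE r) (l : L) :
    ∃ c, 0 ≤ c ∧ ∀ T : A, ‖β T l‖ ≤ c * ‖T‖ :=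
  ⟨‖β‖ * ‖l‖, by positivity, fun T => (β.le_opNorm₂ T l).trans (le_of_eq (by ring))⟩

theorem nmap_abs (β : A →L[ℝ] L →L[ℝ] EE r) {Φ : Ctl r → (ℝ →ᵇ A)} (hΦ : ContDiff ℝ 2 Φ) :
    ∃ N : Ctl r × L → Ctl r, ContDiff ℝ 1 N ∧
      (∀ (u : Ctl r) (l : L), ∀ᵐ t ∂((volume : Measure ℝ).restrict (Ioc 0 1)),
        N (u, l) t = β (Φ u t) l) ∧
      ∀ (u : Ctl r) (l : L) (B : Ctl r →L[ℝ] (ℝ →ᵇ A)) (G : ℝ × Ctl r → (ℝ →ᵇ A)),
        ContDiff ℝ 1 G →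
        (∀ (δ : ℝ) (x : Ctl r), Φ (u + δ • x) = Φ u + δ • B x + δ ^ 2 • G (δ, x)) →
        ∀ v : Ctl r, ∀ᵐ t ∂((volume : Measure ℝ).restrict (Ioc 0 1)),
          (fderiv ℝ N (u, l) (v, 0) : Ctl r) t = β (B v t) l := by
  obtain ⟨𝔅, h𝔅⟩ := lift_bil β
  have hΦ1 : ContDiff ℝ 1 Φ := hΦ.of_le (by norm_num)
  have hN : ContDiff ℝ 1 (fun p : Ctl r × L => 𝔅 (Φ p.1) p.2) :=
    𝔅.isBoundedBilinearMap.contDiff.comp ((hΦ1.comp contDiff_fst).prodMk contDiff_snd)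
  refine ⟨fun p => 𝔅 (Φ p.1) p.2, hN, fun u l => h𝔅 _ _, ?_⟩
  intro u l B G hG hexp v
  have hd : HasFDerivAt (fun p : Ctl r × L => 𝔅 (Φ p.1) p.2)
      (fderiv ℝ (fun p : Ctl r × L => 𝔅 (Φ p.1) p.2) (u, l)) ((u, l) + (0 : ℝ) • (v, (0 : L))) := by
    rw [zero_smul, add_zero]
    exact ((hN.differentiable (by norm_num)).differentiableAt).hasFDerivAt
  have h1 : HasDerivAt (fun δ : ℝ => (u, l) + δ • (v, (0 : L))) (v, (0 : L)) 0 := by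
    simpa using ((hasDerivAt_id (0 : ℝ)).smul_const (v, (0 : L))).const_add (u, l)
  have h2 := hd.comp_hasDerivAt (0 : ℝ) h1
  have h3 : ((fun p : Ctl r × L => 𝔅 (Φ p.1) p.2) ∘ fun δ : ℝ => (u, l) + δ • (v, (0 : L))) =
      fun δ : ℝ => 𝔅 (Φ u) l + δ • 𝔅 (B v) l + δ ^ 2 • 𝔅 (G (δ, v)) l := by
    funext δ
    have h4 : ((u, l) + δ • (v, (0 : L)) : Ctl r × L) = (u + δ • v, l) := by
      ext <;> simp
    rw [Function.comp_apply, h4]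
    change 𝔅 (Φ (u + δ • v)) l = _
    rw [hexp, map_add, map_add, map_smul, map_smul]
    rfl
  rw [h3] at h2
  have hGd : DifferentiableAt ℝ (fun δ : ℝ => 𝔅 (G (δ, v)) l) 0 := by
    have h5 : ContDiff ℝ 1 (fun δ : ℝ => 𝔅 (G (δ, v)) l) := by
      have h6 : ContDiff ℝ 1 (𝔅.flip l) := ContinuousLinearMap.contDiff _
      exact h6.comp (hG.comp (contDiff_id.prodMk contDiff_const))
    exact (h5.differentiable (by norm_num)).differentiableAt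
  have h7 : HasDerivAt (fun δ : ℝ => 𝔅 (Φ u) l + δ • 𝔅 (B v) l + δ ^ 2 • 𝔅 (G (δ, v)) l) _ 0 :=
    (((hasDerivAt_id (0 : ℝ)).smul_const (𝔅 (B v) l)).const_add (𝔅 (Φ u) l)).add
      ((hasDerivAt_pow 2 (0 : ℝ)).smul hGd.hasDerivAt)
  have h8 : fderiv ℝ (fun p : Ctl r × L => 𝔅 (Φ p.1) p.2) (u, l) (v, 0) = 𝔅 (B v) l := by
    rw [h2.unique h7]
    simp
  rw [h8]
  exact h𝔅 _ _

end Pool.Agent.CutLoci.H72
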