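import Pool.Agent.Lib.MP_0e3b4a_gt.H72.Expb
import Pool.Agent.Lib.MP_0e3b4a_gt.H72.NmapA

/-! # Module NMAP: the map of the normal extremals (helper72) -/

set_option autoImplicit false
set_option linter.unusedSectionVars false

namespace Pool.Agent.CutLoci.H72

open MeasureTheory Set Filter Topology
open scoped BoundedContinuousFunction

section

variable {g : Type} [NormedAddCommGroup g] [NormedSpace ℝ g] [FiniteDimensional ℝ g] {r : ℕ}

/-- the vector representing `a ↦ l (lin T (X a))` -/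
noncomputable def bvec (C : Carnot g r) : Carnot.Aff g →L[ℝ] (g →L[ℝ] ℝ) →L[ℝ] EE r :=
  LinearMap.toContinuousBilinearMap
    (LinearMap.mk₂ ℝ (fun (T : Carnot.Aff g) (l : g →L[ℝ] ℝ) =>
      (WithLp.toLp 2 fun i => l (Carnot.lin T (C.X (EuclideanSpace.single i (1 : ℝ)))) : EE r))
      (fun T T' l => by
        ext i
        simp [Carnot.lin])
      (fun c T l => by
        ext i
        simp [Carnot.lin])
      (fun T l l' => by
        ext i
        simp)
      (fun c T l => by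
        ext i
        simp))

theorem bvec_apply (C : Carnot g r) (T : Carnot.Aff g) (l : g →L[ℝ] ℝ) (i : Fin r) :
    bvec C T l i = l (Carnot.lin T (C.X (EuclideanSpace.single i (1 : ℝ)))) := rfl

theorem inner_bvec (C : Carnot g r) (T : Carnot.Aff g) (l : g →L[ℝ] ℝ) (a : EE r) :
    inner ℝ (bvec C T l) a = l (Carnot.lin T (C.X a)) := by
  have h1 : a = ∑ i, a i • (EuclideanSpace.single i (1 : ℝ) : EE r) := by
    ext j
    simp [Pi.single_apply]
  conv_rhs => rw [h1]
  rw [map_sum, map_sum, map_sum, PiLp.inner_apply]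
  refine Finset.sum_congr rfl fun i _ => ?_
  rw [map_smul, map_smul, map_smul, bvec_apply]
  simp

end

/-- NMAP -/
theorem nmap (g : Type) [NormedAddCommGroup g] [NormedSpace ℝ g] [FiniteDimensional ℝ g] (r : ℕ)
    (hE : ExpaStatement) (hF : FlowStatement) (hS : StrucStatement g r) (hU : UniqStatement)
    (hP : ProdStatement) (hN : NilpStatement g r) : NmapStatement g r := by
  intro C
  obtain ⟨Φ, hΦ2, hΦ, hexp⟩ := hE r (Carnot.Aff g) C.R (C.s + 1) (hN C).1
  obtain ⟨N, hN1, hN2, hN3⟩ := nmap_abs (bvec C) hΦ2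
  refine ⟨N, hN1, fun u l => ?_, fun u l => ?_⟩
  · filter_upwards [hN2 u l, ae_restrict_mem measurableSet_Ioc] with t ht ht1 a
    rw [ht, inner_bvec, hΦ u t]
    have h2 : max 0 (min t 1) = t := by
      rw [min_eq_left ht1.2, max_eq_right ht1.1.le]
    rw [h2]
    rfl
  · have S := str C hF hS hN (ctl_int u)
    obtain ⟨B, G, hGs, hG1, hB, -⟩ := hexp u
    obtain ⟨ca, hca⟩ := isCompact_Icc.exists_bound_of_continuousOn S.ac
    obtain ⟨cg, hcg⟩ := isCompact_Icc.exists_bound_of_continuousOn S.gc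
    have h0 : (0 : ℝ) ∈ Icc (0 : ℝ) 1 := left_mem_Icc.2 zero_le_one
    have hca0 : 0 ≤ ca := (norm_nonneg _).trans (hca 0 h0)
    have hcg0 : 0 ≤ cg := (norm_nonneg _).trans (hcg 0 h0)
    obtain ⟨cb, hcb0, hcb⟩ := bound_bil (bvec C) l
    refine ⟨cb * ‖C.rep‖ * cg * (ca * ‖C.X‖), fun v => ?_⟩
    filter_upwards [hN3 u l B G hGs hG1 v, ae_restrict_mem measurableSet_Ioc] with t ht ht1
    have ht2 : t ∈ Icc (0 : ℝ) 1 := Ioc_subset_Icc_self ht1
    have h1 := S.first hP hU (ctl_int v) (B v).continuous.continuousOn (hB v) t ht2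
    have hW : ‖C.W u v t‖ ≤ (ca * ‖C.X‖) * ∫ s in (0 : ℝ)..t, ‖v s‖ := by
      rw [← intervalIntegral.integral_const_mul]
      refine intervalIntegral.norm_integral_le_of_norm_le ht2.1 ?_ ?_
      · refine Eventually.of_forall fun s hs => ?_
        have hs2 : s ∈ Icc (0 : ℝ) 1 := ⟨hs.1.le, hs.2.trans ht2.2⟩
        calc ‖C.Ad u s (C.X (v s))‖ ≤ ‖C.Ad u s‖ * ‖C.X (v s)‖ := (C.Ad u s).le_opNorm _
          _ ≤ ca * (‖C.X‖ * ‖v s‖) := by
            gcongr
            · exact hca s hs2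
            · exact C.X.le_opNorm _
          _ = ca * ‖C.X‖ * ‖v s‖ := by ring
      · exact (ii (ctl_int v).norm ht2).const_mul _
    have hI : 0 ≤ ∫ s in (0 : ℝ)..t, ‖v s‖ :=
      intervalIntegral.integral_nonneg ht2.1 fun s _ => norm_nonneg _
    rw [ht, h1]
    calc ‖bvec C (C.rep (C.W u v t) * C.Gam u t) l‖
        ≤ cb * ‖C.rep (C.W u v t) * C.Gam u t‖ := hcb _
      _ ≤ cb * ((‖C.rep‖ * ((ca * ‖C.X‖) * ∫ s in (0 : ℝ)..t, ‖v s‖)) * cg) := by
        gcongr
        refine (norm_mul_le _ _).trans ?_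
        gcongr
        · exact (C.rep.le_opNorm _).trans (by gcongr)
        · exact hcg t ht2
      _ = cb * ‖C.rep‖ * cg * (ca * ‖C.X‖) * ∫ s in (0 : ℝ)..t, ‖v s‖ := by ring

end Pool.Agent.CutLoci.H72
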