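import Pool.Agent.Lib.MP_0e3b4a_gt.Iface3
import Pool.Agent.Lib.MP_0e3b4a_gt.H30.Triv

/-! # NSEC: second order conditions in rank two -/

set_option autoImplicit false

namespace Pool.Agent.CutLoci.H72

open MeasureTheory Set Filter Topology

variable {g : Type} [NormedAddCommGroup g] [NormedSpace ℝ g] [FiniteDimensional ℝ g]

/-- Isotropy, almost everywhere on a subinterval. -/
theorem iso_ae (C : Carnot g 2) (u : Ctl 2) (l : g →L[ℝ] ℝ) (hI : Iso C u l) {a b : ℝ}
    (ha : 0 ≤ a) (hb : b ≤ 1) :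
    ∀ᵐ t ∂(volume.restrict (Ioc a b)), ∀ y ∈ leftS C u t ⊓ rightS C u t,
      ∀ z ∈ leftS C u t ⊓ rightS C u t, l (C.br y z) = 0 := by
  obtain ⟨Z, hZ⟩ := hI
  have h1 : ∀ᵐ t : ℝ ∂volume, t ∉ (Z : Set ℝ) ∪ {1} := by
    rw [ae_iff]
    simp only [not_not]
    exact ((Z.finite_toSet.union (finite_singleton 1)).measure_zero volume)
  rw [ae_restrict_iff' measurableSet_Ioc]
  filter_upwards [h1] with t ht hm y hy z hz
  have ht0 : t ∈ Ioo (0 : ℝ) 1 :=
    ⟨lt_of_le_of_lt ha hm.1, lt_of_le_of_ne (hm.2.trans hb) fun h => ht (Or.inr h)⟩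
  exact hZ t ht0 (fun h => ht (Or.inl h)) y hy z (Submodule.mem_sup_left hz.1)

/-- NSEC. -/
theorem nsec (hS : StrucStatement g 2) (hP : PropaStatement g 2) (hL : LimsStatement g 2) :
    NsecStatement g := by
  intro C u l hI hu
  have hui : IntegrableOn (u : ℝ → EE 2) (Ioc 0 1) := (Lp.memLp u).integrable (by norm_num)
  obtain ⟨-, -, hst⟩ := hS C u hui
  have hw : ∀ᵐ t ∂(volume.restrict (Ioc (0 : ℝ) 1)),
      C.Ad u t (ww C) ∈ leftS C u t ⊓ rightS C u t := by
    filter_upwards [(hL C u).2, hu] with t ht hut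
    obtain ⟨d, hd⟩ := H30.exists_partner C (u t) (EuclideanSpace.single 0 1)
      (EuclideanSpace.single 1 1) hut
    rw [ww, hd]
    exact ht d
  have huw : ∀ᵐ t ∂(volume.restrict (Ioc (0 : ℝ) 1)),
      C.Ad u t (C.br (C.X (u t)) (ww C)) ∈ leftS C u t ⊓ rightS C u t := by
    have h := hP C u 0 1 (fun _ => ww C) (fun _ => 0) le_rfl one_pos le_rfl
      (integrableOn_zero) (fun t _ => by simp) hw
    filter_upwards [h] with t ht
    simpa using ht
  refine ⟨?_, ?_⟩
  · filter_upwards [hw, huw, iso_ae C u l hI le_rfl le_rfl,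
      ae_restrict_mem measurableSet_Ioc] with t h1 h2 h3 hm
    rw [(hst t (Ioc_subset_Icc_self hm)).2.1]
    exact h3 _ h1 _ h2
  · intro a b k k' ha hab hb hk' hk huk
    have hsub : Ioc a b ⊆ Ioc (0 : ℝ) 1 := Ioc_subset_Ioc ha hb
    have hre : volume.restrict (Ioc a b) ≤ (volume : Measure ℝ).restrict (Ioc (0 : ℝ) 1) :=
      Measure.restrict_mono hsub le_rfl
    have hkw : ∀ᵐ t ∂(volume.restrict (Ioc a b)),
        C.Ad u t (C.br (C.X (k t)) (ww C)) ∈ leftS C u t ⊓ rightS C u t := by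
      filter_upwards [huk, ae_mono hre hu, ae_mono hre huw] with t ⟨c, hc⟩ hut hm
      have hc0 : c ≠ 0 := by
        rintro rfl
        rw [zero_smul] at hc
        exact hut hc
      rw [hc] at hm
      simp only [map_smul, smul_apply] at hm
      have h := Submodule.smul_mem _ c⁻¹ hm
      rwa [smul_smul, inv_mul_cancel₀ hc0, one_smul] at h
    have hd : ∀ᵐ t ∂(volume.restrict (Ioc a b)),
        C.Ad u t (C.br (C.X (k' t)) (ww C) + C.br (C.X (u t)) (C.br (C.X (k t)) (ww C))) ∈
          leftS C u t ⊓ rightS C u t := by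
      have hL0 : ∀ a : EE 2, C.br (C.X a) (ww C) = ((C.br.flip (ww C)).comp C.X) a :=
        fun a => rfl
      refine hP C u a b (fun t => C.br (C.X (k t)) (ww C)) (fun t => C.br (C.X (k' t)) (ww C))
        ha hab hb ?_ ?_ hkw
      · exact ((C.br.flip (ww C)).comp C.X).integrable_comp hk'
      · intro t ht
        have hii : IntervalIntegrable k' volume a t := by
          rw [intervalIntegrable_iff_integrableOn_Ioc_of_le ht.1]
          exact hk'.mono_set (Ioc_subset_Ioc_right ht.2)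
        simp only [hL0]
        rw [((C.br.flip (ww C)).comp C.X).intervalIntegral_comp_comm hii, hk t ht, map_add]
    filter_upwards [hkw, hd, iso_ae C u l hI ha hb, ae_restrict_mem measurableSet_Ioc] with
      t h1 h2 h3 hm
    rw [(hst t (Ioc_subset_Icc_self (hsub hm))).2.1]
    exact h3 _ h1 _ h2

end Pool.Agent.CutLoci.H72
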