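import Pool.Agent.Lib.MP_0e3b4a_gt.Iface3

/-! # SIXT: time evolution in degree six -/

set_option autoImplicit false

namespace Pool.Agent.CutLoci.H72

open MeasureTheory Set Filter Topology

variable {g : Type} [NormedAddCommGroup g] [NormedSpace ℝ g] [FiniteDimensional ℝ g]

/-- `Ad_t z = z` if `[X a, z] = 0` for all `a`. -/
theorem Ad_fix (C : Carnot g 2) (u : ℝ → EE 2) {t : ℝ} {z : g}
    (hA : C.Ad u t z = z + ∫ s in (0 : ℝ)..t, C.Ad u s (C.br (C.X (u s)) z))
    (hz : ∀ a, C.br (C.X a) z = 0) : C.Ad u t z = z := by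
  rw [hA]
  simp [hz]

/-- SIXT. -/
theorem sixt (hS : StrucStatement g 2) (hA : SixaStatement g) : SixtStatement g := by
  intro C hD u l t ht
  have hui : IntegrableOn (u : ℝ → EE 2) (Ioc 0 1) := (Lp.memLp u).integrable (by norm_num)
  obtain ⟨-, -, hst⟩ := hS C u hui
  obtain ⟨A1, A2, A3, hl⟩ := hA C hD
  obtain ⟨L1, -, -⟩ := hl l
  refine ⟨?_, ?_, ?_⟩
  · intro b
    have h1 : ∫ s in (0 : ℝ)..t, C.Ad u s (C.br (C.X (u s))
        (C.br (ww C) (C.br (C.X b) (ww C)))) =
        C.br (C.X (∫ s in (0 : ℝ)..t, u s)) (C.br (ww C) (C.br (C.X b) (ww C))) := by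
      have h2 : ∫ s in (0 : ℝ)..t, C.Ad u s (C.br (C.X (u s))
          (C.br (ww C) (C.br (C.X b) (ww C)))) = ∫ s in (0 : ℝ)..t,
          ((C.br.flip (C.br (ww C) (C.br (C.X b) (ww C)))).comp C.X) (u s) := by
        refine intervalIntegral.integral_congr fun s hs' => ?_
        rw [uIcc_of_le ht.1] at hs'
        have hs : s ∈ Icc (0 : ℝ) 1 := ⟨hs'.1, hs'.2.trans ht.2⟩
        exact Ad_fix C u ((hst s hs).2.2.2.1 _) fun a => A1 a _ _
      have hii : IntervalIntegrable (u : ℝ → EE 2) volume 0 t := by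
        rw [intervalIntegrable_iff_integrableOn_Ioc_of_le ht.1]
        exact hui.mono_set (Ioc_subset_Ioc_right ht.2)
      rw [h2, ContinuousLinearMap.intervalIntegral_comp_comm _ hii]
      rfl
    rw [(hst t ht).2.2.2.1, h1, map_add]
    rfl
  · intro a b
    rw [Ad_fix C u ((hst t ht).2.2.2.1 _) fun c => A3 c a b]
    exact L1 a b
  · intro a b c
    rw [A2, map_zero, map_zero]

end Pool.Agent.CutLoci.H72
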