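import Pool.Agent.Lib.MP_0e3b4a_gt.Iface

/-! # Tools for the modules EXPB and NMAP (helper72) -/

set_option autoImplicit false
set_option linter.unusedSectionVars false

namespace Pool.Agent.CutLoci.H72

open MeasureTheory Set Filter Topology
open scoped BoundedContinuousFunction

/-! ### integrability -/

section int

variable {E F G : Type} [NormedAddCommGroup E] [NormedSpace ℝ E] [NormedAddCommGroup F]
  [NormedSpace ℝ F] [NormedAddCommGroup G] [NormedSpace ℝ G]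

theorem aesm_of_cont {x : ℝ → E} (hx : ContinuousOn x (Icc 0 1)) :
    AEStronglyMeasurable x ((volume : Measure ℝ).restrict (Ioc 0 1)) :=
  (hx.mono Ioc_subset_Icc_self).aestronglyMeasurable measurableSet_Ioc

/-- the product of a continuous and an integrable function -/
theorem int_bil (B : E →L[ℝ] F →L[ℝ] G) {x : ℝ → E} {y : ℝ → F}
    (hx : ContinuousOn x (Icc 0 1)) (hy : IntegrableOn y (Ioc 0 1)) :
    IntegrableOn (fun s => B (x s) (y s)) (Ioc 0 1) := by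
  obtain ⟨c, hc⟩ := isCompact_Icc.exists_bound_of_continuousOn hx
  refine Integrable.mono' (hy.norm.const_mul (‖B‖ * c))
    (B.aestronglyMeasurable_comp₂ (aesm_of_cont hx) hy.aestronglyMeasurable) ?_
  refine (ae_restrict_iff' measurableSet_Ioc).2 (Eventually.of_forall fun s hs => ?_)
  calc ‖B (x s) (y s)‖ ≤ ‖B‖ * ‖x s‖ * ‖y s‖ := B.le_opNorm₂ _ _
    _ ≤ ‖B‖ * c * ‖y s‖ := by
      gcongr
      exact hc s (Ioc_subset_Icc_self hs)

theorem int_bil' (B : E →L[ℝ] F →L[ℝ] G) {x : ℝ → E} {y : ℝ → F}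
    (hx : IntegrableOn x (Ioc 0 1)) (hy : ContinuousOn y (Icc 0 1)) :
    IntegrableOn (fun s => B (x s) (y s)) (Ioc 0 1) :=
  int_bil B.flip hy hx

theorem int_cont {x : ℝ → E} (hx : ContinuousOn x (Icc 0 1)) : IntegrableOn x (Ioc 0 1) :=
  (hx.integrableOn_Icc).mono_set Ioc_subset_Icc_self

theorem clm_int (L : E →L[ℝ] F) {x : ℝ → E} (hx : IntegrableOn x (Ioc 0 1)) :
    IntegrableOn (fun s => L (x s)) (Ioc 0 1) :=
  ContinuousLinearMap.integrable_comp (μ := (volume : Measure ℝ).restrict (Ioc 0 1)) L hx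

theorem ctl_int {r : ℕ} (u : Ctl r) : IntegrableOn (u : ℝ → EE r) (Ioc 0 1) :=
  (Lp.memLp u).integrable (by norm_num)

/-- interval integrability on initial intervals -/
theorem ii {x : ℝ → E} (hx : IntegrableOn x (Ioc 0 1)) {t : ℝ} (ht : t ∈ Icc (0 : ℝ) 1) :
    IntervalIntegrable x volume 0 t :=
  (intervalIntegrable_iff_integrableOn_Ioc_of_le ht.1).2
    (hx.mono_set (Ioc_subset_Ioc_right ht.2))

theorem prim_cont {x : ℝ → E} (hx : IntegrableOn x (Ioc 0 1)) :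
    ContinuousOn (fun t => ∫ s in (0 : ℝ)..t, x s) (Icc 0 1) := by
  have h1 : IntegrableOn x (uIcc 0 1) := by
    rw [uIcc_of_le zero_le_one, integrableOn_Icc_iff_integrableOn_Ioc]
    exact hx
  have h2 := intervalIntegral.continuousOn_primitive_interval h1
  rwa [uIcc_of_le zero_le_one] at h2

/-- congruence of primitives -/
theorem int_congr {x y : ℝ → E} {t : ℝ} (ht : t ∈ Icc (0 : ℝ) 1)
    (h : ∀ s ∈ Icc (0 : ℝ) 1, x s = y s) :
    ∫ s in (0 : ℝ)..t, x s = ∫ s in (0 : ℝ)..t, y s := by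
  refine intervalIntegral.integral_congr fun s hs => ?_
  rw [uIcc_of_le ht.1] at hs
  exact h s ⟨hs.1, hs.2.trans ht.2⟩

theorem int_congr_ae {x y : ℝ → E} {t : ℝ} (ht : t ∈ Icc (0 : ℝ) 1)
    (h : ∀ᵐ s ∂((volume : Measure ℝ).restrict (Ioc 0 1)), x s = y s) :
    ∫ s in (0 : ℝ)..t, x s = ∫ s in (0 : ℝ)..t, y s := by
  rw [intervalIntegral.integral_of_le ht.1, intervalIntegral.integral_of_le ht.1]
  refine integral_congr_ae ?_
  exact ae_restrict_of_ae_restrict_of_subset (Ioc_subset_Ioc_right ht.2) h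

end int

/-! ### evaluation -/

theorem ev_contDiff {A : Type} [NormedRing A] [NormedAlgebra ℝ A] {g X : Type}
    [NormedAddCommGroup g] [NormedSpace ℝ g] [NormedAddCommGroup X] [NormedSpace ℝ X]
    (o : A →L[ℝ] g) {G : X → (ℝ →ᵇ A)} {n : WithTop ℕ∞} (hG : ContDiff ℝ n G) (t : ℝ) :
    ContDiff ℝ n fun p => o (G p t) := by
  have h : ContDiff ℝ n (o.comp (BoundedContinuousFunction.evalCLM ℝ t) : (ℝ →ᵇ A) →L[ℝ] g) :=
    ContinuousLinearMap.contDiff _
  exact h.comp hG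

theorem expand_apply {A : Type} [NormedRing A] [NormedAlgebra ℝ A] {g : Type}
    [NormedAddCommGroup g] [NormedSpace ℝ g] (o : A →L[ℝ] g) {F F0 F1 F2 : ℝ →ᵇ A} {δ : ℝ}
    (h : F = F0 + δ • F1 + δ ^ 2 • F2) (t : ℝ) :
    o (F t) = o (F0 t) + δ • o (F1 t) + δ ^ 2 • o (F2 t) := by
  rw [h, BoundedContinuousFunction.add_apply, BoundedContinuousFunction.add_apply,
    BoundedContinuousFunction.smul_apply, BoundedContinuousFunction.smul_apply, map_add, map_add,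
    map_smul, map_smul]

/-! ### the product rule -/

theorem prodB (hP : ProdStatement) {E F G : Type} [NormedAddCommGroup E] [NormedSpace ℝ E]
    [CompleteSpace E] [NormedAddCommGroup F] [NormedSpace ℝ F] [CompleteSpace F]
    [NormedAddCommGroup G] [NormedSpace ℝ G] [CompleteSpace G] (B : E →L[ℝ] F →L[ℝ] G)
    {a x : ℝ → E} {b y : ℝ → F} {a0 : E} {b0 : F} (hx : IntegrableOn x (Ioc 0 1))
    (hy : IntegrableOn y (Ioc 0 1)) (ha : ∀ t ∈ Icc (0 : ℝ) 1, a t = a0 + ∫ s in (0 : ℝ)..t, x s)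
    (hb : ∀ t ∈ Icc (0 : ℝ) 1, b t = b0 + ∫ s in (0 : ℝ)..t, y s) (t : ℝ)
    (ht : t ∈ Icc (0 : ℝ) 1) :
    B (a t) (b t) = B a0 b0 + ∫ s in (0 : ℝ)..t, (B (x s) (b s) + B (a s) (y s)) := by
  have h1 := hP E F G B x y a0 b0 hx hy t ht
  rw [ha t ht, hb t ht, h1]
  congr 1
  refine int_congr ht fun s hs => ?_
  rw [ha s hs, hb s hs]

theorem prodA (hP : ProdStatement) {A : Type} [NormedRing A] [NormedAlgebra ℝ A]
    [CompleteSpace A] {a x b y : ℝ → A} {a0 b0 : A} (hx : IntegrableOn x (Ioc 0 1))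
    (hy : IntegrableOn y (Ioc 0 1)) (ha : ∀ t ∈ Icc (0 : ℝ) 1, a t = a0 + ∫ s in (0 : ℝ)..t, x s)
    (hb : ∀ t ∈ Icc (0 : ℝ) 1, b t = b0 + ∫ s in (0 : ℝ)..t, y s) (t : ℝ)
    (ht : t ∈ Icc (0 : ℝ) 1) :
    a t * b t = a0 * b0 + ∫ s in (0 : ℝ)..t, (x s * b s + a s * y s) :=
  prodB hP (ContinuousLinearMap.mul ℝ A) hx hy ha hb t ht

end Pool.Agent.CutLoci.H72
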